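import Pool.Agent.N366.RS.Fin

/-!
# There are infinitely many rotation snarks

For every `k` there is a rotation `T_{4k+2}`-snark.
-/

set_option autoImplicit false

namespace Pool.Agent.Results.MP_3688cb_co.InfinitelyManyRotationSnarks

open Pool.Agent.N366.RS

/-- There is a sequence of finite, pairwise non-isomorphic rotation snarks `G 0, G 1, G 2, …`, and
`G k` is a rotation `T_{4k+2}`-snark. -/
theorem result : ∃ (V : ℕ → Type) (G : ∀ k, SimpleGraph (V k)),
    (∀ k, Finite (V k)) ∧ (∀ k, IsRotationTSnark (4 * k + 2) (G k)) ∧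
    ∀ j k, j ≠ k → IsEmpty (G j ≃g G k) := by
  choose V hV G hG using exists_rot
  exact ⟨V, G, hV, hG, fun j k hjk => non_iso (by omega) (hG j) (hG k)⟩

end Pool.Agent.Results.MP_3688cb_co.InfinitelyManyRotationSnarks
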